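import Pool.Agent.V8H88.OM.Mon
import Pool.Agent.V8H88.GO.Ari
import Pool.Agent.V8H88.GO.Dns

/-!
# Bianchi newforms: an odd monomial in the two Hecke roots suffices for geometric origin

Let `f` be a newform with coefficients in the number field `E`, with Galois representations `ρ_{f,p}` for the primes `p` in a set
and all embeddings of `E` into `ℚ̄_p`. We assume that `f` has no complex multiplication: for one `p` and one embedding the
restriction of `ρ_{f,p}` to the Galois group of each quadratic extension of `K` is irreducible.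

Let `x` be a triple (a smooth projective variety over `K`, a degree, a Tate twist), and let `e` be such a triple for which the
product of the two Hecke roots is a Frobenius eigenvalue (for weight two and trivial character `e` is `H²(P¹)`). Assume that for
all primes `v` in a set of upper density one the Frobenius polynomial of `x` has as a root SOME monomial `α_v ^ r * β_v ^ s` in
the two roots of the Hecke polynomial, where `r + s` is odd, `r, s ≤ N`; the exponents may depend on `v`. Then `ρ_{f,p}` arises
from the cohomology of smooth projective varieties for ALL allowed `p` and all embeddings. For example it is enough that the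
Frobenius polynomial of `x` has one common root with that of `Sym^n ρ_f`, or of `Sym^a ρ_f ⊗ Sym^b ρ_f`, `n`, `a + b` odd.

For `r + s` even the statement is false in general (`x` may have only even tensors in `ρ_f`), and for forms with complex
multiplication too (the monomials `α ^ 3`).

The cohomology enters through the structure `Cohomology` (Künneth formula, Poincaré duality, Deligne's theorem, for the étale
cohomology of smooth projective varieties), the newform through the structure `NewformSystem`.
-/

set_option autoImplicit false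

namespace Pool.Agent.Results.MP_2e0e07_nt.OddMonomials

open NumberField IsDedekindDomain Pool.Agent.W401.Cheb Pool.Agent.V8H88.GO Pool.Agent.V8H88.OM
open Polynomial Matrix

/-- The restriction of `ρ` to each open subgroup of index two is irreducible. -/
def NotInduced {Γ k : Type} [Group Γ] [TopologicalSpace Γ] [Field k]
    (ρ : Γ →* Matrix (Fin 2) (Fin 2) k) : Prop :=
  ∀ G : Subgroup Γ, IsOpen (G : Set Γ) → G.index = 2 → IsIrreducible (ρ.comp G.subtype)

theorem prim_of {Γ k : Type} [Group Γ] [TopologicalSpace Γ] [IsTopologicalGroup Γ] [Field k]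
    [TopologicalSpace k] [IsTopologicalRing k] [T2Space k]
    (ρ : Γ →* Matrix (Fin 2) (Fin 2) k) (hc : Continuous ρ) (hirr : IsIrreducible ρ)
    (h : NotInduced ρ) : Prim ρ := by
  intro x y hx hy
  by_contra hcon
  push Not at hcon
  have hne : ∀ g, ρ g *ᵥ x ≠ 0 := by
    intro g h0
    apply hx
    have h1 : ρ g⁻¹ *ᵥ (ρ g *ᵥ x) = x := by
      rw [mulVec_mulVec, ← map_mul, inv_mul_cancel, map_one, one_mulVec]
    rw [← h1, h0, mulVec_zero]
  let G : Subgroup Γ :=
    { carrier := {g | ∃ c : k, ρ g *ᵥ x = c • x}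
      one_mem' := ⟨1, by rw [map_one, one_mulVec, one_smul]⟩
      mul_mem' := by
        rintro a b ⟨c, hc⟩ ⟨d, hd⟩
        exact ⟨d * c, by rw [map_mul, ← mulVec_mulVec, hd, mulVec_smul, hc, smul_smul]⟩
      inv_mem' := by
        rintro a ⟨c, hc⟩
        have hc0 : c ≠ 0 := by
          rintro rfl
          rw [zero_smul] at hc
          exact hne a hc
        refine ⟨c⁻¹, ?_⟩
        have h1 : ρ a⁻¹ *ᵥ (ρ a *ᵥ x) = x := by
          rw [mulVec_mulVec, ← map_mul, inv_mul_cancel, map_one, one_mulVec]
        rw [hc, mulVec_smul] at h1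
        rw [← h1, smul_smul, inv_mul_cancel₀ hc0, one_smul, h1] }
  have hG : ∀ g, g ∈ G ↔ ∃ c : k, ρ g *ᵥ x = c • x := fun g => Iff.rfl
  have hclosed : IsClosed (G : Set Γ) := by
    have h1 : (G : Set Γ) = {g | dt x (ρ g *ᵥ x) = 0} := by
      ext g
      constructor
      · rintro ⟨c, hc⟩
        change dt x (ρ g *ᵥ x) = 0
        rw [hc]; unfold dt; simp; ring
      · intro hg
        exact prop_of_dt hx hg
    rw [h1]
    refine isClosed_eq ?_ continuous_const
    unfold dt
    have h2 : ∀ i, Continuous fun g => (ρ g *ᵥ x) i := by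
      intro i
      simp only [mulVec, dotProduct]
      exact continuous_finsetSum _ fun j _ => (hc.matrix_elem i j).mul continuous_const
    exact (continuous_const.mul (h2 1)).sub (continuous_const.mul (h2 0))
  have hGne : ∃ g, g ∉ G := by
    by_contra hcon'
    push Not at hcon'
    rcases hirr.2 (Submodule.span k {x}) (by
      intro g z hz
      obtain ⟨c, rfl⟩ := Submodule.mem_span_singleton.mp hz
      obtain ⟨d, hd⟩ := hcon' g
      rw [mulVec_smul, hd]
      exact Submodule.smul_mem _ _ (Submodule.smul_mem _ _ (Submodule.mem_span_singleton_self x)))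
      with h1 | h1
    · exact hx (Submodule.span_singleton_eq_bot.mp h1)
    · have h2 : Module.finrank k (Submodule.span k {x}) = 1 := finrank_span_singleton hx
      rw [h1, finrank_top, Module.finrank_fintype_fun_eq_card, Fintype.card_fin] at h2
      omega
  obtain ⟨g₀, hg₀⟩ := hGne
  have hy' : ∀ g, g ∉ G → ∃ c : k, ρ g *ᵥ x = c • y := by
    intro g hg
    exact hcon g (fun c hc => hg ⟨c, hc⟩)
  have hindex : G.index = 2 := by
    rw [Subgroup.index_eq_two_iff]
    refine ⟨g₀, fun b => ?_⟩
    by_cases hb : b ∈ G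
    · refine Or.inr ⟨hb, fun h1 => hg₀ ?_⟩
      have := G.mul_mem (G.inv_mem hb) h1
      rwa [inv_mul_cancel_left] at this
    · refine Or.inl ⟨?_, hb⟩
      by_contra h1
      obtain ⟨c₀, hc₀⟩ := hy' g₀ hg₀
      obtain ⟨c, hc⟩ := hy' b hb
      obtain ⟨d, hd⟩ := hy' _ h1
      have hc0 : c ≠ 0 := by
        rintro rfl
        rw [zero_smul] at hc
        exact hne b hc
      -- `ρ b (ρ g₀ x - (d / c) x) = 0`
      have h2 : ρ b *ᵥ (ρ g₀ *ᵥ x - (d / c) • x) = 0 := by
        rw [mulVec_sub, mulVec_mulVec, ← map_mul, hd, mulVec_smul, hc, smul_smul,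
          div_mul_cancel₀ d hc0, sub_self]
      have h3 : ρ g₀ *ᵥ x - (d / c) • x = 0 := by
        have h4 : ρ b⁻¹ *ᵥ (ρ b *ᵥ (ρ g₀ *ᵥ x - (d / c) • x)) = ρ g₀ *ᵥ x - (d / c) • x := by
          rw [mulVec_mulVec, ← map_mul, inv_mul_cancel, map_one, one_mulVec]
        rw [← h4, h2, mulVec_zero]
      exact hg₀ ⟨d / c, sub_eq_zero.mp h3⟩
  have : G.FiniteIndex := ⟨by rw [hindex]; norm_num⟩
  have hopen : IsOpen (G : Set Γ) := Subgroup.isOpen_of_isClosed_of_finiteIndex G hclosed
  have hirr' := h G hopen hindex
  rcases hirr'.2 (Submodule.span k {x}) (by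
    rintro ⟨g, hg⟩ z hz
    obtain ⟨c, rfl⟩ := Submodule.mem_span_singleton.mp hz
    obtain ⟨d, hd⟩ := hg
    change ρ g *ᵥ (c • x) ∈ _
    rw [mulVec_smul, hd]
    exact Submodule.smul_mem _ _ (Submodule.smul_mem _ _ (Submodule.mem_span_singleton_self x)))
    with h1 | h1
  · exact hx (Submodule.span_singleton_eq_bot.mp h1)
  · have h2 : Module.finrank k (Submodule.span k {x}) = 1 := finrank_span_singleton hx
    rw [h1, finrank_top, Module.finrank_fintype_fun_eq_card, Fintype.card_fin] at h2
    omega

/-- **Theorem.** Let `H` be a cohomology theory and let `f` be a newform with coefficients in `E` whose representation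
`ρ_{f,q}`, for one allowed prime `q` and one embedding, is not induced from a quadratic extension. Let `x`, `e` be objects and `S`
a set of primes of upper density one. Assume that for all `v ∈ S` the product of the two Hecke roots is a root of the Frobenius
polynomial of `e`, and some monomial `a ^ r * b ^ s` in the two Hecke roots `a`, `b`, with `r + s` odd and `r, s ≤ N`, is a root
of the Frobenius polynomial of `x`. Then `ρ_{f,q}` is a subquotient of a tensor product of copies of the `q`-adic representations
of `x`, of `e` and of their duals, and `ρ_{f,p}` arises from cohomology for all allowed `p` and all embeddings. -/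
theorem result {K E : Type} [Field K] [NumberField K] [Field E] [NumberField E]
    (H : Cohomology K) (f : NewformSystem K E) (x e : H.Obj) (N : ℕ)
    (S : Set (HeightOneSpectrum (𝓞 K))) (hS : UpperDensityOne K S)
    (he : ∀ v ∈ S, ((H.frob e v).map (algebraMap ℚ E)).IsRoot ((f.hecke v).coeff 0))
    (hx : ∀ v ∈ S, ∃ (a b : AlgebraicClosure E) (r s : ℕ), r ≤ N ∧ s ≤ N ∧ Odd (r + s) ∧
      (f.hecke v).map (algebraMap E (AlgebraicClosure E)) = (X - C a) * (X - C b) ∧
      ((H.frob x v).map (algebraMap ℚ (AlgebraicClosure E))).IsRoot (a ^ r * b ^ s))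
    (q : ℕ) [Fact q.Prime] (hq : q ∈ f.primes) (κ : E →+* PadicAlgCl q)
    (hf : NotInduced (f.rep q κ)) :
    (∃ (l : Type) (i : Fintype l) (j : DecidableEq l) (U : GK K →* Matrix l l (PadicAlgCl q)),
      IsMixedPower (H.rep q x) (H.rep q e) l i j U ∧ IsSubquotient (f.rep q κ) U) ∧
    ∀ (p : ℕ) [Fact p.Prime], p ∈ f.primes → ∀ ι : E →+* PadicAlgCl p,
      H.Arises p (f.rep p ι) := by
  have hSd : FrobDense K S := frobDense_of_density K S hS
  have hqq : q.Prime := Fact.out
  set T : Set (HeightOneSpectrum (𝓞 K)) :=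
    f.bad ∪ H.bad x ∪ H.bad e ∪ {v : HeightOneSpectrum (𝓞 K) | (q : 𝓞 K) ∈ v.asIdeal} with hT
  have hTf : T.Finite :=
    ((f.finite_bad.union (H.finite_bad x)).union (H.finite_bad e)).union (finite_over K q hqq)
  -- an embedding of the algebraic closure
  obtain ⟨j, hj⟩ : ∃ j : AlgebraicClosure E →+* PadicAlgCl q,
      j.comp (algebraMap E (AlgebraicClosure E)) = κ := by
    let _ := κ.toAlgebra
    refine ⟨(IsAlgClosed.lift : AlgebraicClosure E →ₐ[E] PadicAlgCl q).toRingHom, ?_⟩
    exact AlgHom.comp_algebraMap _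
  have hW : ∀ σ v, v ∉ T → IsFrob v σ → (f.rep q κ σ).charpoly = (f.hecke v).map κ := by
    intro σ v hvT hσ
    rw [hT, Set.mem_union, Set.mem_union, Set.mem_union, not_or, not_or, not_or] at hvT
    exact f.charpoly_frob q κ hq v hvT.1.1.1 hvT.2 σ hσ
  have hE : ∀ σ v, v ∈ S → v ∉ T → IsFrob v σ →
      (H.rep q e σ).charpoly.IsRoot (f.rep q κ σ).det := by
    intro σ v hv hvT hσ
    have h1 := hW σ v hvT hσ
    rw [hT, Set.mem_union, Set.mem_union, Set.mem_union, not_or, not_or, not_or] at hvT
    have h2 : (f.rep q κ σ).det = κ ((f.hecke v).coeff 0) := by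
      rw [Matrix.det_eq_sign_charpoly_coeff, h1, Fintype.card_fin, coeff_map]
      norm_num
    rw [H.charpoly_frob q e v hvT.1.2 hvT.2 σ hσ, h2, ← rat_comp κ, ← Polynomial.map_map]
    exact (he v hv).map
  have hne : Nonempty (Fin (H.dim e)) := by
    obtain ⟨σ, v, hv, hvT, hσ⟩ := (hSd T hTf).nonempty
    by_contra hempty
    rw [not_nonempty_iff] at hempty
    have h1 := hE σ v hv hvT hσ
    rw [isRoot_charpoly_iff] at h1
    obtain ⟨w, hw, -⟩ := h1
    exact hw (Subsingleton.elim _ _)
  have main := monomials_dense (H.rep q x) (H.rep q e) (f.rep q κ) (H.continuous_rep q x)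
    (H.continuous_rep q e) (f.continuous_rep q κ hq) (f.irreducible q κ hq)
    (prim_of _ (f.continuous_rep q κ hq) (f.irreducible q κ hq) hf) N _ (hSd T hTf)
    (by
      rintro σ ⟨v, hv, hvT, hσ⟩
      obtain ⟨a, b, r, s, hr, hs, hrs, hab, hroot⟩ := hx v hv
      have h1 := hW σ v hvT hσ
      rw [hT, Set.mem_union, Set.mem_union, Set.mem_union, not_or, not_or, not_or] at hvT
      have h2 : (f.rep q κ σ).charpoly = (X - C (j a)) * (X - C (j b)) := by
        rw [h1, ← hj, ← Polynomial.map_map, hab]
        simp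
      refine cnd_eq_zero hr hs hrs h2 ?_
      have h3 := hroot.map (f := j)
      rw [Polynomial.map_map, map_mul, map_pow, map_pow] at h3
      rw [H.charpoly_frob q x v hvT.1.1.2 hvT.2 σ hσ]
      have h4 : j.comp (algebraMap ℚ (AlgebraicClosure E)) = algebraMap ℚ (PadicAlgCl q) :=
        RingHom.ext_rat _ _
      rwa [h4] at h3)
    (by
      rintro σ ⟨v, hv, hvT, hσ⟩
      exact cnd'_eq_zero (hE σ v hv hvT hσ))
  refine ⟨main, ?_⟩
  obtain ⟨l, i, j', U, hU, hsub⟩ := main
  obtain ⟨y, hy⟩ := mixedPower_sub H q x e hU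
  have hy' : IsSubquotient (f.rep q κ) (H.rep q y) := hsub.trans hy
  intro p _ hp ι
  obtain ⟨S', hS', hroot⟩ := independence H f q hq κ y hy'
  obtain ⟨l', i', j'', U', hU', hsub'⟩ := one_root H f y S' hS' hroot p hp ι
  obtain ⟨z, hz⟩ := tensorPower_sub H p y hU'
  exact ⟨z, hsub'.trans hz⟩

end Pool.Agent.Results.MP_2e0e07_nt.OddMonomials
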