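import Pool.Agent.V8H88.GO.Ari

/-!
# Geometric origin is independent of `p`, and it is enough to find one Hecke root

Let `f` be a Bianchi newform (or any two-dimensional compatible system of irreducible representations of
the absolute Galois group of a number field `K`), and let `X` be a smooth projective variety over `K`.

* Suppose that for the primes `v` in a set of upper density one the Hecke polynomial of `f` at `v` and
  the characteristic polynomial of Frobenius on `H^i(X)(j)` have a common root. Then for all allowed
  primes `p` and all embeddings of the field of coefficients into `ℚ̄_p` the representation `ρ_{f,p}` is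
  a subquotient of a tensor product of copies of `H^i(X, ℚ̄_p)(j)` and of its dual; so it arises from
  étale cohomology.
* If `ρ_{f,p}` arises from étale cohomology for one `p` and one embedding, then for all `p` and all
  embeddings. So Q1 for `f` is a question about `f` alone, with the same answer for the Galois
  conjugates of `f`.

Idea of the proof. Let `V = H^i(X, ℚ̄_p)(j)` and `W = ρ_{f,p}`. By Chebotarev's theorem and continuity
`V(g)` and `W(g)` have a common eigenvalue for all `g`. This is a polynomial condition on the matrix
coefficients, so for the elements `ν` of the Zariski closure of the image of `V ⊕ W` which are trivial on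
`V` the matrix `W(ν)` has the eigenvalue `1`. These matrices form a group which is normalized by an
irreducible group; in dimension two this forces `W(ν) = 1`. By a descent argument (an epimorphism of
reduced affine groups in characteristic zero with trivial kernel is an isomorphism) the matrix
coefficients of `W` are polynomials in those of `V` and of its dual.
-/

set_option autoImplicit false

namespace Pool.Agent.Results.MP_2e0e07_nt.OneHeckeRoot

open Pool.Agent.V8H88.GO NumberField IsDedekindDomain Polynomial Pool.Agent.W401.Cheb

theorem result (K E : Type) [Field K] [NumberField K] [Field E] [NumberField E]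
    (H : Cohomology K) (f : NewformSystem K E) :
    -- (1) sets of primes of upper natural density one have dense Frobenius elements
    (∀ S : Set (HeightOneSpectrum (𝓞 K)), UpperDensityOne K S → FrobDense K S) ∧
    -- (2) one common root at the primes of such a set is enough, for all `p`
    (∀ (x : H.Obj) (S : Set (HeightOneSpectrum (𝓞 K))), FrobDense K S →
      (∀ v ∈ S, ¬ IsCoprime (f.hecke v) ((H.frob x v).map (algebraMap ℚ E))) →
      ∀ (p : ℕ) [Fact p.Prime], p ∈ f.primes → ∀ ι : E →+* PadicAlgCl p,
        (∃ (l : Type) (a : Fintype l) (b : DecidableEq l)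
          (U : GK K →* Matrix l l (PadicAlgCl p)),
          IsTensorPower (H.rep p x) l a b U ∧ IsSubquotient (f.rep p ι) U) ∧
        H.Arises p (f.rep p ι)) ∧
    -- (3) independence of `p` and of the embedding
    ((∃ (p : ℕ) (_ : Fact p.Prime) (ι : E →+* PadicAlgCl p),
        p ∈ f.primes ∧ H.Arises p (f.rep p ι)) →
      ∀ (p : ℕ) [Fact p.Prime], p ∈ f.primes → ∀ ι : E →+* PadicAlgCl p,
        H.Arises p (f.rep p ι)) := by
  have two : ∀ (x : H.Obj) (S : Set (HeightOneSpectrum (𝓞 K))), FrobDense K S →
      (∀ v ∈ S, ¬ IsCoprime (f.hecke v) ((H.frob x v).map (algebraMap ℚ E))) →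
      ∀ (p : ℕ) [Fact p.Prime], p ∈ f.primes → ∀ ι : E →+* PadicAlgCl p,
        (∃ (l : Type) (a : Fintype l) (b : DecidableEq l)
          (U : GK K →* Matrix l l (PadicAlgCl p)),
          IsTensorPower (H.rep p x) l a b U ∧ IsSubquotient (f.rep p ι) U) ∧
        H.Arises p (f.rep p ι) := by
    intro x S hS hroot p _ hp ι
    obtain ⟨l, a, b, U, hU, hsub⟩ := one_root H f x S hS hroot p hp ι
    obtain ⟨y, hy⟩ := tensorPower_sub H p x hU
    exact ⟨⟨l, a, b, U, hU, hsub⟩, y, hsub.trans hy⟩
  refine ⟨fun S hS => frobDense_of_density K S hS, two, ?_⟩
  rintro ⟨p₀, _, ι₀, hp₀, x, hx⟩ p _ hp ι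
  obtain ⟨S, hS, hroot⟩ := independence H f p₀ hp₀ ι₀ x hx
  exact (two x S hS hroot p hp ι).2

end Pool.Agent.Results.MP_2e0e07_nt.OneHeckeRoot
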